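import Pool.Agent.H23.UC.Stm2

/-!
# Level repulsion: from small discs in the planes parallel to two directions to the probability

Proof of `StCell` of `Pool.Agent.H23.UC.Stm2`: Fubini and a cover of the bounded part of a plane
slice by finitely many translates of a disc.
-/

set_option autoImplicit false

open Set Filter Topology MeasureTheory

noncomputable section

namespace Pool.Agent.H51.UC

open Pool.Agent.H23.UC

/-- the plane slice map -/
def sliceMap {E : Type} [NormedAddCommGroup E] [NormedSpace ℝ E] (h k : E) : ℂ →L[ℝ] E :=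
  Complex.reCLM.smulRight h + Complex.imCLM.smulRight k

theorem sliceMap_apply {E : Type} [NormedAddCommGroup E] [NormedSpace ℝ E] (h k : E) (z : ℂ) :
    sliceMap h k z = z.re • h + z.im • k := by
  simp [sliceMap]

theorem sliceMap_ker {E : Type} [NormedAddCommGroup E] [NormedSpace ℝ E] (h k : E)
    (hLI : LinearIndependent ℝ ![h, k]) : LinearMap.ker (sliceMap h k : ℂ →ₗ[ℝ] E) = ⊥ := by
  rw [LinearMap.ker_eq_bot']
  intro z hz
  have hz' : z.re • h + z.im • k = 0 := by
    rw [← sliceMap_apply]; exact hz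
  have := LinearIndependent.pair_iff.1 hLI z.re z.im hz'
  exact Complex.ext this.1 this.2

/-- the slice of a bounded set has a volume bounded by the volume in discs of radius `r` -/
theorem slice_volume_le {E : Type} [NormedAddCommGroup E] [NormedSpace ℝ E] (h k : E)
    (hLI : LinearIndependent ℝ ![h, k]) (R r : ℝ) (hr : 0 < r) :
    ∃ N : ℕ, ∀ (A : Set E), (∀ φ ∈ A, ‖φ‖ ≤ R) → ∀ X : ENNReal,
      (∀ ψ : E, volume {z : ℂ | z ∈ Metric.closedBall (0 : ℂ) r ∧
        ψ + (z.re • h + z.im • k) ∈ A} ≤ X) →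
      ∀ ψ : E, volume {z : ℂ | ψ + (z.re • h + z.im • k) ∈ A} ≤ N * X := by
  obtain ⟨K, hK, hanti⟩ := LinearMap.exists_antilipschitzWith
    (sliceMap h k : ℂ →ₗ[ℝ] E) (sliceMap_ker h k hLI)
  obtain ⟨t, ht1, ht2, ht3⟩ := (isCompact_closedBall (0 : ℂ) (K * (2 * R))).finite_cover_balls hr
  refine ⟨ht2.toFinset.card, fun A hA X hX ψ => ?_⟩
  rcases Set.eq_empty_or_nonempty {z : ℂ | ψ + (z.re • h + z.im • k) ∈ A} with he | ⟨z₀, hz₀⟩
  · rw [he]; simp
  · have hsub : {z : ℂ | ψ + (z.re • h + z.im • k) ∈ A} ⊆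
        ⋃ x ∈ ht2.toFinset, (fun z : ℂ => z + (-(z₀ + x))) ⁻¹'
          {z : ℂ | z ∈ Metric.closedBall (0 : ℂ) r ∧
            (ψ + sliceMap h k (z₀ + x)) + (z.re • h + z.im • k) ∈ A} := by
      intro z hz
      have hz' : ψ + sliceMap h k z ∈ A := by rw [sliceMap_apply]; exact hz
      have hz₀' : ψ + sliceMap h k z₀ ∈ A := by rw [sliceMap_apply]; exact hz₀
      have h1 : dist z z₀ ≤ K * dist (sliceMap h k z) (sliceMap h k z₀) := by
        simpa using hanti.le_mul_dist z z₀
      have h2 : dist (sliceMap h k z) (sliceMap h k z₀) ≤ 2 * R := by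
        have : sliceMap h k z - sliceMap h k z₀
            = (ψ + sliceMap h k z) - (ψ + sliceMap h k z₀) := by abel
        rw [dist_eq_norm, this]
        calc _ ≤ ‖ψ + sliceMap h k z‖ + ‖ψ + sliceMap h k z₀‖ := norm_sub_le _ _
          _ ≤ R + R := add_le_add (hA _ hz') (hA _ hz₀')
          _ = 2 * R := by ring
      have h3 : z - z₀ ∈ Metric.closedBall (0 : ℂ) (K * (2 * R)) := by
        rw [mem_closedBall_zero_iff, ← dist_eq_norm]
        exact h1.trans (mul_le_mul_of_nonneg_left h2 K.2)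
      have h4 := ht3 h3
      simp only [mem_iUnion, exists_prop] at h4
      obtain ⟨x, hx, hxz⟩ := h4
      simp only [mem_iUnion, exists_prop, Set.Finite.mem_toFinset]
      refine ⟨x, hx, ?_⟩
      constructor
      · rw [mem_closedBall_zero_iff]
        have : z + -(z₀ + x) = (z - z₀) - x := by ring
        show ‖z + -(z₀ + x)‖ ≤ r
        rw [this, ← dist_eq_norm]
        exact (Metric.mem_ball.1 hxz).le
      · show (ψ + sliceMap h k (z₀ + x)) + ((z + -(z₀ + x)).re • h + (z + -(z₀ + x)).im • k) ∈ A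
        rw [← sliceMap_apply, add_assoc, ← map_add]
        have : z₀ + x + (z + -(z₀ + x)) = z := by ring
        rw [this]
        exact hz'
    calc volume {z : ℂ | ψ + (z.re • h + z.im • k) ∈ A}
        ≤ volume (⋃ x ∈ ht2.toFinset, (fun z : ℂ => z + (-(z₀ + x))) ⁻¹'
          {z : ℂ | z ∈ Metric.closedBall (0 : ℂ) r ∧
            (ψ + sliceMap h k (z₀ + x)) + (z.re • h + z.im • k) ∈ A}) := measure_mono hsub
      _ ≤ ∑ x ∈ ht2.toFinset, volume ((fun z : ℂ => z + (-(z₀ + x))) ⁻¹'
          {z : ℂ | z ∈ Metric.closedBall (0 : ℂ) r ∧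
            (ψ + sliceMap h k (z₀ + x)) + (z.re • h + z.im • k) ∈ A}) :=
          measure_biUnion_finset_le _ _
      _ ≤ ∑ _x ∈ ht2.toFinset, X := by
          refine Finset.sum_le_sum fun x _ => ?_
          rw [measure_preimage_add_right]
          exact hX _
      _ = ht2.toFinset.card * X := by simp [nsmul_eq_mul]

theorem stCell : StCell := by
  intro E _ _ _ _ _ P h k hP hLI R r hr
  obtain ⟨Q, ν, c, hQ, hν, hc, hν2, hPeq⟩ := hP
  obtain ⟨N, hN⟩ := slice_volume_le h k hLI R r hr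
  refine ⟨c * N, ENNReal.mul_ne_top hc (by simp), fun A hA hR X hX => ?_⟩
  have hmeas : Measurable fun p : E × ℂ => p.1 + (p.2.re • h + p.2.im • k) := by
    refine Continuous.measurable ?_
    fun_prop
  have hB := hN A hR X hX
  rw [hPeq, Measure.map_apply hmeas hA, Measure.prod_apply (hmeas hA)]
  calc ∫⁻ ψ, ν (Prod.mk ψ ⁻¹' ((fun p : E × ℂ => p.1 + (p.2.re • h + p.2.im • k)) ⁻¹' A)) ∂Q
      ≤ ∫⁻ _ψ, c * (N * X) ∂Q := by
        refine lintegral_mono fun ψ => ?_
        calc ν (Prod.mk ψ ⁻¹' ((fun p : E × ℂ => p.1 + (p.2.re • h + p.2.im • k)) ⁻¹' A))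
            ≤ (c • (volume : Measure ℂ)) (Prod.mk ψ ⁻¹'
              ((fun p : E × ℂ => p.1 + (p.2.re • h + p.2.im • k)) ⁻¹' A)) := hν2 _
          _ = c * volume {z : ℂ | ψ + (z.re • h + z.im • k) ∈ A} := by
              rw [Measure.smul_apply, smul_eq_mul]; rfl
          _ ≤ c * (N * X) := mul_le_mul_right (hB ψ) c
    _ = c * N * X := by
        rw [lintegral_const, measure_univ, mul_one, mul_assoc]

end Pool.Agent.H51.UC
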