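import Pool.Agent.H23.UC.Stm6

/-!
# Level repulsion: from small balls in the spaces parallel to `d` directions to the probability

Proof of `StCellD` of `Pool.Agent.H23.UC.Stm6`: Fubini and a cover of the bounded part of a slice by
finitely many translates of a ball.
-/

set_option autoImplicit false

open Set Filter Topology MeasureTheory

noncomputable section

namespace Pool.Agent.H51.UC

open Pool.Agent.H23.UC

/-- the slice map -/
def sliceD {E : Type} [NormedAddCommGroup E] [NormedSpace ℝ E] {d : ℕ} (h : Fin d → E) :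
    EuclideanSpace ℝ (Fin d) →ₗ[ℝ] E where
  toFun z := ∑ j, z j • h j
  map_add' z w := by
    simp [add_smul, Finset.sum_add_distrib]
  map_smul' c z := by
    simp [mul_smul, Finset.smul_sum]

theorem sliceD_apply {E : Type} [NormedAddCommGroup E] [NormedSpace ℝ E] {d : ℕ} (h : Fin d → E)
    (z : EuclideanSpace ℝ (Fin d)) : sliceD h z = ∑ j, z j • h j := rfl

theorem sliceD_ker {E : Type} [NormedAddCommGroup E] [NormedSpace ℝ E] {d : ℕ} (h : Fin d → E)
    (hLI : LinearIndependent ℝ h) : LinearMap.ker (sliceD h) = ⊥ := by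
  rw [LinearMap.ker_eq_bot']
  intro z hz
  have h1 := Fintype.linearIndependent_iff.1 hLI (fun j => z j) hz
  ext j
  exact h1 j

/-- the slice of a bounded set has a volume bounded by the volume in balls of radius `r` -/
theorem sliceD_volume_le {E : Type} [NormedAddCommGroup E] [NormedSpace ℝ E] {d : ℕ} (h : Fin d → E)
    (hLI : LinearIndependent ℝ h) (R r : ℝ) (hr : 0 < r) :
    ∃ N : ℕ, ∀ (A : Set E), (∀ φ ∈ A, ‖φ‖ ≤ R) → ∀ X : ENNReal,
      (∀ ψ : E, volume {z : EuclideanSpace ℝ (Fin d) |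
        z ∈ Metric.closedBall (0 : EuclideanSpace ℝ (Fin d)) r ∧ ψ + ∑ j, z j • h j ∈ A} ≤ X) →
      ∀ ψ : E, volume {z : EuclideanSpace ℝ (Fin d) | ψ + ∑ j, z j • h j ∈ A} ≤ N * X := by
  obtain ⟨K, hK, hanti⟩ := LinearMap.exists_antilipschitzWith (sliceD h) (sliceD_ker h hLI)
  obtain ⟨t, ht1, ht2, ht3⟩ :=
    (isCompact_closedBall (0 : EuclideanSpace ℝ (Fin d)) (K * (2 * R))).finite_cover_balls hr
  refine ⟨ht2.toFinset.card, fun A hA X hX ψ => ?_⟩
  rcases Set.eq_empty_or_nonempty {z : EuclideanSpace ℝ (Fin d) | ψ + ∑ j, z j • h j ∈ A} with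
    he | ⟨z₀, hz₀⟩
  · rw [he]; simp
  · have hsub : {z : EuclideanSpace ℝ (Fin d) | ψ + ∑ j, z j • h j ∈ A} ⊆
        ⋃ x ∈ ht2.toFinset, (fun z : EuclideanSpace ℝ (Fin d) => z + (-(z₀ + x))) ⁻¹'
          {z : EuclideanSpace ℝ (Fin d) |
            z ∈ Metric.closedBall (0 : EuclideanSpace ℝ (Fin d)) r ∧
            (ψ + sliceD h (z₀ + x)) + ∑ j, z j • h j ∈ A} := by
      intro z hz
      have hz' : ψ + sliceD h z ∈ A := hz
      have hz₀' : ψ + sliceD h z₀ ∈ A := hz₀
      have h1 : dist z z₀ ≤ K * dist (sliceD h z) (sliceD h z₀) := by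
        simpa using hanti.le_mul_dist z z₀
      have h2 : dist (sliceD h z) (sliceD h z₀) ≤ 2 * R := by
        have : sliceD h z - sliceD h z₀ = (ψ + sliceD h z) - (ψ + sliceD h z₀) := by abel
        rw [dist_eq_norm, this]
        calc _ ≤ ‖ψ + sliceD h z‖ + ‖ψ + sliceD h z₀‖ := norm_sub_le _ _
          _ ≤ R + R := add_le_add (hA _ hz') (hA _ hz₀')
          _ = 2 * R := by ring
      have h3 : z - z₀ ∈ Metric.closedBall (0 : EuclideanSpace ℝ (Fin d)) (K * (2 * R)) := by
        rw [mem_closedBall_zero_iff, ← dist_eq_norm]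
        exact h1.trans (mul_le_mul_of_nonneg_left h2 K.2)
      have h4 := ht3 h3
      simp only [mem_iUnion, exists_prop] at h4
      obtain ⟨x, hx, hxz⟩ := h4
      simp only [mem_iUnion, exists_prop, Set.Finite.mem_toFinset]
      refine ⟨x, hx, ?_⟩
      constructor
      · rw [mem_closedBall_zero_iff]
        have : z + -(z₀ + x) = (z - z₀) - x := by abel
        show ‖z + -(z₀ + x)‖ ≤ r
        rw [this, ← dist_eq_norm]
        exact (Metric.mem_ball.1 hxz).le
      · show (ψ + sliceD h (z₀ + x)) + sliceD h (z + -(z₀ + x)) ∈ A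
        rw [add_assoc, ← map_add]
        have : z₀ + x + (z + -(z₀ + x)) = z := by abel
        rw [this]
        exact hz'
    calc volume {z : EuclideanSpace ℝ (Fin d) | ψ + ∑ j, z j • h j ∈ A}
        ≤ volume (⋃ x ∈ ht2.toFinset, (fun z : EuclideanSpace ℝ (Fin d) => z + (-(z₀ + x))) ⁻¹'
          {z : EuclideanSpace ℝ (Fin d) |
            z ∈ Metric.closedBall (0 : EuclideanSpace ℝ (Fin d)) r ∧
            (ψ + sliceD h (z₀ + x)) + ∑ j, z j • h j ∈ A}) := measure_mono hsub
      _ ≤ ∑ x ∈ ht2.toFinset, volume ((fun z : EuclideanSpace ℝ (Fin d) => z + (-(z₀ + x))) ⁻¹'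
          {z : EuclideanSpace ℝ (Fin d) |
            z ∈ Metric.closedBall (0 : EuclideanSpace ℝ (Fin d)) r ∧
            (ψ + sliceD h (z₀ + x)) + ∑ j, z j • h j ∈ A}) :=
          measure_biUnion_finset_le _ _
      _ ≤ ∑ _x ∈ ht2.toFinset, X := by
          refine Finset.sum_le_sum fun x _ => ?_
          rw [measure_preimage_add_right]
          exact hX _
      _ = ht2.toFinset.card * X := by simp [nsmul_eq_mul]

theorem stCellD : StCellD := by
  intro E _ _ _ _ _ P d h hP hLI R r hr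
  obtain ⟨Q, ν, c, hQ, hν, hc, hν2, hPeq⟩ := hP
  obtain ⟨N, hN⟩ := sliceD_volume_le h hLI R r hr
  refine ⟨c * N, ENNReal.mul_ne_top hc (by simp), fun A hA hR X hX => ?_⟩
  have hmeas : Measurable fun p : E × EuclideanSpace ℝ (Fin d) => p.1 + ∑ j, p.2 j • h j := by
    refine Continuous.measurable ?_
    fun_prop
  have hB := hN A hR X hX
  rw [hPeq, Measure.map_apply hmeas hA, Measure.prod_apply (hmeas hA)]
  calc ∫⁻ ψ, ν (Prod.mk ψ ⁻¹' ((fun p : E × EuclideanSpace ℝ (Fin d) =>
        p.1 + ∑ j, p.2 j • h j) ⁻¹' A)) ∂Q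
      ≤ ∫⁻ _ψ, c * (N * X) ∂Q := by
        refine lintegral_mono fun ψ => ?_
        calc ν (Prod.mk ψ ⁻¹' ((fun p : E × EuclideanSpace ℝ (Fin d) =>
              p.1 + ∑ j, p.2 j • h j) ⁻¹' A))
            ≤ (c • (volume : Measure (EuclideanSpace ℝ (Fin d)))) (Prod.mk ψ ⁻¹'
              ((fun p : E × EuclideanSpace ℝ (Fin d) => p.1 + ∑ j, p.2 j • h j) ⁻¹' A)) := hν2 _
          _ = c * volume {z : EuclideanSpace ℝ (Fin d) | ψ + ∑ j, z j • h j ∈ A} := by
              rw [Measure.smul_apply, smul_eq_mul]; rfl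
          _ ≤ c * (N * X) := mul_le_mul_right (hB ψ) c
    _ = c * N * X := by
        rw [lintegral_const, measure_univ, mul_one, mul_assoc]

end Pool.Agent.H51.UC
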