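import Pool.Agent.H23.UC.Stm5

/-!
# Nondegenerate Gaussian measures on separable Banach spaces

The covariance vectors, the decomposition along a covariance vector or along a plane spanned by two
of them, the densities in these planes and the support.
-/

set_option autoImplicit false

open Set Filter Topology MeasureTheory ProbabilityTheory

noncomputable section

namespace Pool.Agent.H51.UC

open Pool.Agent.H23.UC

/-! ### Densities on the line and on the plane -/

/-- a measure with a bounded density -/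
def Bdd {X : Type} [MeasureSpace X] (ν : Measure X) : Prop :=
  ∃ c : ENNReal, c ≠ ⊤ ∧ ν ≤ c • (volume : Measure X)

/-- a measure with a density which is bounded from below on all bounded sets -/
def Low {X : Type} [NormedAddCommGroup X] [MeasureSpace X] (ν : Measure X) : Prop :=
  ∀ R : ℝ, ∃ c : ENNReal, 0 < c ∧ c ≠ ⊤ ∧
    c • ((volume : Measure X).restrict (Metric.closedBall 0 R)) ≤ ν

theorem bdd_gaussianReal (m : ℝ) {v : NNReal} (hv : v ≠ 0) : Bdd (gaussianReal m v) := by
  refine ⟨ENNReal.ofReal ((√(2 * Real.pi * v))⁻¹), ENNReal.ofReal_ne_top, ?_⟩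
  rw [gaussianReal_of_var_ne_zero _ hv, ← withDensity_const]
  refine withDensity_mono (ae_of_all _ fun x => ?_)
  refine ENNReal.ofReal_le_ofReal ?_
  rw [gaussianPDFReal]
  refine mul_le_of_le_one_right (by positivity) ?_
  rw [Real.exp_le_one_iff]
  have : 0 ≤ (x - m) ^ 2 / (2 * (v : ℝ)) := by positivity
  rw [neg_div]
  linarith

theorem low_gaussianReal (m : ℝ) {v : NNReal} (hv : v ≠ 0) : Low (gaussianReal m v) := by
  intro R
  have hc : Continuous (gaussianPDFReal m v) := by
    unfold gaussianPDFReal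
    fun_prop
  have hpos : ∀ x, 0 < gaussianPDFReal m v x := fun x => gaussianPDFReal_pos _ _ _ hv
  obtain ⟨c, hc0, hcle⟩ : ∃ c : ℝ, 0 < c ∧ ∀ x ∈ Metric.closedBall (0 : ℝ) R,
      c ≤ gaussianPDFReal m v x := by
    rcases (Metric.closedBall (0 : ℝ) R).eq_empty_or_nonempty with h | h
    · exact ⟨1, one_pos, by simp [h]⟩
    · obtain ⟨x, hx, hmin⟩ := (isCompact_closedBall (0 : ℝ) R).exists_isMinOn h hc.continuousOn
      exact ⟨_, hpos x, fun y hy => hmin hy⟩
  refine ⟨ENNReal.ofReal c, ENNReal.ofReal_pos.2 hc0, ENNReal.ofReal_ne_top, ?_⟩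
  rw [gaussianReal_of_var_ne_zero _ hv]
  refine Measure.le_intro fun s hs _ => ?_
  rw [Measure.smul_apply, smul_eq_mul, Measure.restrict_apply hs, withDensity_apply _ hs]
  calc ENNReal.ofReal c * volume (s ∩ Metric.closedBall 0 R)
      = ∫⁻ _ in s ∩ Metric.closedBall 0 R, ENNReal.ofReal c := by
        rw [lintegral_const, Measure.restrict_apply_univ]
    _ ≤ ∫⁻ x in s ∩ Metric.closedBall 0 R, gaussianPDF m v x := by
        refine setLIntegral_mono (measurable_gaussianPDF _ _) fun x hx => ?_
        exact ENNReal.ofReal_le_ofReal (hcle x hx.2)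
    _ ≤ ∫⁻ x in s, gaussianPDF m v x :=
        lintegral_mono_set inter_subset_left

/-- the identification of the plane with `ℂ` -/
abbrev toC : ℝ × ℝ → ℂ := fun p => ⟨p.1, p.2⟩

theorem measurable_toC : Measurable toC := Complex.measurableEquivRealProd.symm.measurable

theorem map_toC : (volume : Measure (ℝ × ℝ)).map toC = (volume : Measure ℂ) :=
  Complex.volume_preserving_equiv_real_prod.symm.map_eq

theorem Bdd.plane {a b : Measure ℝ} [SFinite a] [SFinite b] (ha : Bdd a) (hb : Bdd b) :
    Bdd ((a.prod b).map toC) := by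
  obtain ⟨c, hc, hac⟩ := ha
  obtain ⟨d, hd, hbd⟩ := hb
  refine ⟨c * d, ENNReal.mul_ne_top hc hd, ?_⟩
  have h1 : a.prod b ≤ (c * d) • ((volume : Measure ℝ).prod (volume : Measure ℝ)) := by
    refine (Measure.prod_mono hac hbd).trans ?_
    rw [Measure.prod_smul_left, Measure.prod_smul_right, smul_smul]
  refine (Measure.map_mono h1 measurable_toC).trans ?_
  rw [Measure.map_smul]
  exact le_of_eq (congrArg _ map_toC)

theorem Low.plane {a b : Measure ℝ} [SFinite a] [SFinite b] (ha : Low a) (hb : Low b) :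
    Low ((a.prod b).map toC) := by
  intro R
  obtain ⟨c, hc0, hc, hac⟩ := ha R
  obtain ⟨d, hd0, hd, hbd⟩ := hb R
  refine ⟨c * d, ENNReal.mul_pos hc0.ne' hd0.ne', ENNReal.mul_ne_top hc hd, ?_⟩
  have h1 : (c * d) • (((volume : Measure ℝ).prod (volume : Measure ℝ)).restrict
      (Metric.closedBall (0 : ℝ) R ×ˢ Metric.closedBall (0 : ℝ) R)) ≤ a.prod b := by
    refine le_trans ?_ (Measure.prod_mono hac hbd)
    rw [Measure.prod_smul_left, Measure.prod_smul_right, smul_smul, Measure.prod_restrict]
  refine le_trans ?_ (Measure.map_mono h1 measurable_toC)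
  rw [Measure.map_smul]
  refine Measure.le_intro fun s hs _ => ?_
  rw [Measure.smul_apply, Measure.smul_apply, smul_eq_mul, smul_eq_mul]
  refine mul_le_mul_right ?_ _
  rw [Measure.restrict_apply hs, Measure.map_apply measurable_toC hs,
    Measure.restrict_apply (measurable_toC hs), ← map_toC,
    Measure.map_apply measurable_toC (hs.inter measurableSet_closedBall)]
  refine measure_mono ?_
  rintro p ⟨h2, h3⟩
  refine ⟨h2, ?_, ?_⟩
  · rw [mem_closedBall_zero_iff] at h3 ⊢
    exact (Complex.abs_re_le_norm (toC p)).trans h3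
  · rw [mem_closedBall_zero_iff] at h3 ⊢
    exact (Complex.abs_im_le_norm (toC p)).trans h3

theorem Bdd.map_equiv {ν : Measure ℂ} (h : Bdd ν) (M : ℂ ≃L[ℝ] ℂ) : Bdd (ν.map M) := by
  obtain ⟨c, hc, hle⟩ := h
  have hdet : LinearMap.det (M : ℂ →ₗ[ℝ] ℂ) ≠ 0 := M.toLinearEquiv.isUnit_det'.ne_zero
  refine ⟨c * ENNReal.ofReal |(LinearMap.det (M : ℂ →ₗ[ℝ] ℂ))⁻¹|,
    ENNReal.mul_ne_top hc ENNReal.ofReal_ne_top, ?_⟩
  refine (Measure.map_mono hle M.continuous.measurable).trans ?_
  rw [Measure.map_smul]
  have := Measure.map_linearMap_addHaar_eq_smul_addHaar (volume : Measure ℂ) hdet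
  refine le_of_eq ?_
  rw [← smul_smul, ← this]
  rfl

theorem Low.map_equiv {ν : Measure ℂ} (h : Low ν) (M : ℂ ≃L[ℝ] ℂ) : Low (ν.map M) := by
  intro R
  obtain ⟨c, hc0, hc, hle⟩ := h (‖(M.symm : ℂ →L[ℝ] ℂ)‖ * R)
  have hdet : LinearMap.det (M : ℂ →ₗ[ℝ] ℂ) ≠ 0 := M.toLinearEquiv.isUnit_det'.ne_zero
  refine ⟨c * ENNReal.ofReal |(LinearMap.det (M : ℂ →ₗ[ℝ] ℂ))⁻¹|,
    ENNReal.mul_pos hc0.ne' (ENNReal.ofReal_pos.2 (abs_pos.2 (inv_ne_zero hdet))).ne',
    ENNReal.mul_ne_top hc ENNReal.ofReal_ne_top, ?_⟩
  refine le_trans ?_ (Measure.map_mono hle M.continuous.measurable)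
  rw [Measure.map_smul]
  refine Measure.le_intro fun s hs _ => ?_
  have hM : Measurable (M : ℂ → ℂ) := M.continuous.measurable
  rw [Measure.smul_apply, Measure.smul_apply, smul_eq_mul, smul_eq_mul, mul_assoc]
  refine mul_le_mul_right ?_ _
  rw [Measure.restrict_apply hs, Measure.map_apply hM hs, Measure.restrict_apply (hM hs)]
  have := Measure.addHaar_preimage_linearMap (volume : Measure ℂ) hdet
    (s ∩ Metric.closedBall (0 : ℂ) R)
  rw [← this]
  refine measure_mono ?_
  rintro z ⟨h1, h2⟩
  refine ⟨h1, ?_⟩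
  rw [mem_closedBall_zero_iff] at h2 ⊢
  calc ‖z‖ = ‖(M.symm : ℂ →L[ℝ] ℂ) (M z)‖ := by simp
    _ ≤ ‖(M.symm : ℂ →L[ℝ] ℂ)‖ * ‖M z‖ := ContinuousLinearMap.le_opNorm _ _
    _ ≤ ‖(M.symm : ℂ →L[ℝ] ℂ)‖ * R := by
        refine mul_le_mul_of_nonneg_left ?_ (norm_nonneg _)
        exact h2

/-! ### Covariance vectors -/

variable {E : Type} [NormedAddCommGroup E] [NormedSpace ℝ E] [CompleteSpace E]
  [SecondCountableTopology E] [MeasurableSpace E] [BorelSpace E] (P : Measure E) [IsGaussian P]

/-- the covariance vector of the functional `L` -/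
def cv (L : StrongDual ℝ E) : E := ∫ x, L (x - ∫ y, y ∂P) • (x - ∫ y, y ∂P) ∂P

theorem memLp_centred : MemLp (fun x => x - ∫ y, y ∂P) 2 P :=
  (IsGaussian.memLp_two_id (μ := P)).sub (memLp_const _)

theorem dual_cv (f L : StrongDual ℝ E) : f (cv P L) = cov[L, f; P] := by
  rw [← covarianceBilinDual_eq_covariance IsGaussian.memLp_two_id,
    covarianceBilinDual_apply' IsGaussian.memLp_two_id, cv]
  have h1 : MemLp (fun x => L (x - ∫ y, y ∂P)) 2 P :=
    (memLp_centred P).continuousLinearMap_comp L
  have hi : Integrable (fun x => L (x - ∫ y, y ∂P) • (x - ∫ y, y ∂P)) P :=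
    memLp_one_iff_integrable.1 (MemLp.smul (memLp_centred P) h1)
  rw [← ContinuousLinearMap.integral_comp_comm f hi]
  simp

theorem cv_add (L L' : StrongDual ℝ E) : cv P (L + L') = cv P L + cv P L' := by
  refine (SeparatingDual.eq_iff_forall_dual_eq (R := ℝ)).2 fun f => ?_
  rw [map_add, dual_cv, dual_cv, dual_cv, FunLike.coe_add, covariance_add_left]
  · exact IsGaussian.memLp_dual P L 2 (by simp)
  · exact IsGaussian.memLp_dual P L' 2 (by simp)
  · exact IsGaussian.memLp_dual P f 2 (by simp)

theorem cv_smul (c : ℝ) (L : StrongDual ℝ E) : cv P (c • L) = c • cv P L := by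
  refine (SeparatingDual.eq_iff_forall_dual_eq (R := ℝ)).2 fun f => ?_
  rw [map_smul, dual_cv, dual_cv, FunLike.coe_smul, covariance_smul_left, smul_eq_mul]

theorem cv_sub (L L' : StrongDual ℝ E) : cv P (L - L') = cv P L - cv P L' := by
  have h : L - L' = L + (-1 : ℝ) • L' := by
    ext x
    simp [sub_eq_add_neg]
  rw [h, cv_add, cv_smul, neg_one_smul, sub_eq_add_neg]

/-- the covariance vectors -/
def cvs : Set E := range (cv P)

/-- the subspace of the covariance vectors -/
def cvl : Submodule ℝ E where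
  carrier := cvs P
  add_mem' := by
    rintro _ _ ⟨L, rfl⟩ ⟨L', rfl⟩
    exact ⟨L + L', cv_add P L L'⟩
  zero_mem' := ⟨0, by simpa using cv_smul P 0 0⟩
  smul_mem' := by
    rintro c _ ⟨L, rfl⟩
    exact ⟨c • L, cv_smul P c L⟩

theorem dense_cvs (hP : ∀ L : StrongDual ℝ E, L ≠ 0 → 0 < Var[L; P]) : Dense (cvs P) := by
  by_contra hd
  have hne : ((cvl P).topologicalClosure : Set E) ≠ univ := fun h =>
    hd (dense_iff_closure_eq.2 (by rw [Submodule.topologicalClosure_coe] at h; exact h))
  obtain ⟨x, hx⟩ := (ne_univ_iff_exists_notMem _).1 hne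
  obtain ⟨f, u, hf, hfx⟩ := geometric_hahn_banach_closed_point
    (cvl P).topologicalClosure.convex (cvl P).isClosed_topologicalClosure hx
  have hcl : ∀ v ∈ (cvl P), v ∈ ((cvl P).topologicalClosure : Set E) := fun v hv =>
    (cvl P).le_topologicalClosure hv
  have hu : 0 < u := by simpa using hf 0 (hcl 0 (zero_mem _))
  have h0 : ∀ v ∈ (cvl P), f v = 0 := by
    intro v hv
    by_contra hv0
    have := hf ((u / f v) • v) (hcl _ ((cvl P).smul_mem _ hv))
    rw [map_smul, smul_eq_mul, div_mul_cancel₀ _ hv0] at this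
    exact lt_irrefl _ this
  have hf0 : f ≠ 0 := by
    rintro rfl
    simp only [FunLike.coe_zero, Pi.zero_apply] at hfx
    linarith
  have h1 := hP f hf0
  have h2 := h0 (cv P f) ⟨f, rfl⟩
  rw [dual_cv, covariance_self f.continuous.aemeasurable] at h2
  exact h1.ne' h2

/-! ### Decompositions -/

set_option linter.unusedSectionVars false

/-- decomposition along the covariance vectors of the functionals `g ∘ Y` -/
theorem decomp {F : Type} [NormedAddCommGroup F] [NormedSpace ℝ F] [CompleteSpace F]
    [SecondCountableTopology F] [MeasurableSpace F] [BorelSpace F] (Y : E →L[ℝ] F)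
    (V : F →L[ℝ] E) (h : ∀ g : StrongDual ℝ F, V (Y (cv P (g.comp Y))) = cv P (g.comp Y)) :
    P = ((P.map (fun x => x - V (Y x))).prod (P.map Y)).map (fun p => p.1 + V p.2) := by
  have hT : Measurable fun x => x - V (Y x) := by fun_prop
  have hY : Measurable Y := by fun_prop
  have hG : HasGaussianLaw (fun x => (x - V (Y x), Y x)) P :=
    (IsGaussian.hasGaussianLaw_id (μ := P)).map_fun
      ((ContinuousLinearMap.id ℝ E - V.comp Y).prod Y)
  have hind : IndepFun (fun x => x - V (Y x)) Y P := by
    refine hG.indepFun_of_covariance_strongDual fun f g => ?_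
    have h1 : (f ∘ fun x => x - V (Y x)) = ((f - (f.comp V).comp Y : StrongDual ℝ E) : E → ℝ) := by
      ext x
      simp
    have h2 : (g ∘ Y) = ((g.comp Y : StrongDual ℝ E) : E → ℝ) := rfl
    rw [h1, h2, covariance_comm, ← dual_cv, sub_apply]
    simp only [ContinuousLinearMap.comp_apply]
    rw [h g, sub_self]
  have hprod := (indepFun_iff_map_prod_eq_prod_map_map hT.aemeasurable hY.aemeasurable).1 hind
  rw [← hprod, Measure.map_map (by fun_prop) (by fun_prop)]
  have : ((fun p : E × F => p.1 + V p.2) ∘ fun x => (x - V (Y x), Y x)) = id := by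
    ext x
    simp
  rw [this, Measure.map_id]

/-- the linear map `z ↦ (a x + b y) + c y i` of the plane -/
def tri (a b c : ℝ) (ha : a ≠ 0) (hc : c ≠ 0) : ℂ ≃L[ℝ] ℂ :=
  LinearEquiv.toContinuousLinearEquiv
    { toFun := fun z => ⟨a * z.re + b * z.im, c * z.im⟩
      map_add' := fun z w => by
        apply Complex.ext <;> simp <;> ring
      map_smul' := fun r z => by
        apply Complex.ext <;> simp <;> ring
      invFun := fun w => ⟨(w.re - b * (w.im / c)) / a, w.im / c⟩
      left_inv := fun z => by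
        apply Complex.ext
        · show (a * z.re + b * z.im - b * (c * z.im / c)) / a = z.re
          field_simp
          ring
        · show c * z.im / c = z.im
          field_simp
      right_inv := fun w => by
        apply Complex.ext
        · show a * ((w.re - b * (w.im / c)) / a) + b * (w.im / c) = w.re
          field_simp
          ring
        · show c * (w.im / c) = w.im
          field_simp }

@[simp] theorem tri_re (a b c : ℝ) (ha : a ≠ 0) (hc : c ≠ 0) (z : ℂ) :
    (tri a b c ha hc z).re = a * z.re + b * z.im := rfl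

@[simp] theorem tri_im (a b c : ℝ) (ha : a ≠ 0) (hc : c ≠ 0) (z : ℂ) :
    (tri a b c ha hc z).im = c * z.im := rfl

/-- the map `x ↦ L x + L' x i` -/
def toPlane (L L' : StrongDual ℝ E) : E →L[ℝ] ℂ :=
  (Complex.equivRealProdCLM.symm : ℝ × ℝ →L[ℝ] ℂ).comp (L.prod L')

theorem toPlane_apply (L L' : StrongDual ℝ E) (x : E) : toPlane L L' x = toC (L x, L' x) := rfl

/-- the map `z ↦ x • h + y • k` -/
def ofPlane (h k : E) : ℂ →L[ℝ] E :=
  (Complex.reCLM.smulRight h) + (Complex.imCLM.smulRight k)

theorem ofPlane_apply (h k : E) (z : ℂ) : ofPlane h k z = z.re • h + z.im • k := rfl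

/-- the law of two uncorrelated functionals with the variance one -/
theorem map_toPlane {L L' : StrongDual ℝ E} (h1 : Var[L; P] = 1) (h2 : Var[L'; P] = 1)
    (h12 : cov[L, L'; P] = 0) : Bdd (P.map (toPlane L L')) ∧ Low (P.map (toPlane L L')) := by
  have hG : HasGaussianLaw (fun x => (L x, L' x)) P :=
    (IsGaussian.hasGaussianLaw_id (μ := P)).map_fun (L.prod L')
  have hind : IndepFun L L' P := hG.indepFun_of_covariance_eq_zero h12
  have hprod := (indepFun_iff_map_prod_eq_prod_map_map L.continuous.aemeasurable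
    L'.continuous.aemeasurable).1 hind
  have heq : P.map (toPlane L L') = ((P.map L).prod (P.map L')).map toC := by
    rw [← hprod, Measure.map_map measurable_toC (by fun_prop)]
    rfl
  have e1 : P.map L = gaussianReal (P[L]) 1 := by
    rw [IsGaussian.map_eq_gaussianReal L, h1, Real.toNNReal_one]
  have e2 : P.map L' = gaussianReal (P[L']) 1 := by
    rw [IsGaussian.map_eq_gaussianReal L', h2, Real.toNNReal_one]
  rw [heq, e1, e2]
  exact ⟨(bdd_gaussianReal _ one_ne_zero).plane (bdd_gaussianReal _ one_ne_zero),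
    (low_gaussianReal _ one_ne_zero).plane (low_gaussianReal _ one_ne_zero)⟩

/-- decomposition along the plane of two covariance vectors -/
theorem plane_decomp (hP : ∀ L : StrongDual ℝ E, L ≠ 0 → 0 < Var[L; P]) {h k : E}
    (hh : h ∈ cvs P) (hk : k ∈ cvs P) (hli : LinearIndependent ℝ ![h, k]) :
    ∃ Y : E →L[ℝ] ℂ, Bdd (P.map Y) ∧ Low (P.map Y) ∧
      P = ((P.map fun x => x - ((Y x).re • h + (Y x).im • k)).prod (P.map Y)).map
        fun p => p.1 + (p.2.re • h + p.2.im • k) := by
  obtain ⟨L, rfl⟩ := hh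
  obtain ⟨L', rfl⟩ := hk
  have hmem : ∀ M : StrongDual ℝ E, MemLp M 2 P := fun M => IsGaussian.memLp_dual P M 2 (by simp)
  have hc0 : cv P 0 = 0 := by simpa using cv_smul P 0 0
  have hL : L ≠ 0 := by
    rintro rfl
    exact hli.ne_zero 0 (by simpa using hc0)
  have hv := hP L hL
  set t : ℝ := cov[L, L'; P] / Var[L; P] with ht
  have hL2 : L' - t • L ≠ 0 := by
    intro h0
    have : L' = t • L := sub_eq_zero.1 h0
    rw [this, cv_smul] at hli
    have := LinearIndependent.pair_iff.1 hli t (-1) (by simp)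
    simp at this
  have hv2 := hP _ hL2
  set s : ℝ := √Var[L; P] with hs
  set r : ℝ := √Var[(L' - t • L : StrongDual ℝ E); P] with hr
  have hs0 : 0 < s := Real.sqrt_pos.2 hv
  have hr0 : 0 < r := Real.sqrt_pos.2 hv2
  have hss : s ^ 2 = Var[L; P] := Real.sq_sqrt hv.le
  have hrr : r ^ 2 = Var[(L' - t • L : StrongDual ℝ E); P] := Real.sq_sqrt hv2.le
  set A : StrongDual ℝ E := s⁻¹ • L with hA
  set B : StrongDual ℝ E := r⁻¹ • (L' - t • L) with hB
  clear_value A B
  have hA1 : Var[A; P] = 1 := by
    rw [hA, FunLike.coe_smul, variance_smul, ← hss]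
    field_simp
  have hB1 : Var[B; P] = 1 := by
    rw [hB, FunLike.coe_smul, variance_smul, ← hrr]
    field_simp
  have hAB : cov[A, B; P] = 0 := by
    rw [hA, hB, FunLike.coe_smul, FunLike.coe_smul, covariance_smul_left, covariance_smul_right,
      FunLike.coe_sub, covariance_sub_right (hmem _) (hmem _) (hmem _), FunLike.coe_smul,
      covariance_smul_right, covariance_self L.continuous.aemeasurable, ht,
      div_mul_cancel₀ _ hv.ne', sub_self, mul_zero, mul_zero]
  obtain ⟨hbd, hlow⟩ := map_toPlane P hA1 hB1 hAB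
  have hcA : cv P A = s⁻¹ • cv P L := by rw [hA, cv_smul]
  have hcB : cv P B = r⁻¹ • (cv P L' - t • cv P L) := by
    rw [hB, cv_smul, cv_sub, cv_smul]
  set M : ℂ ≃L[ℝ] ℂ := tri s⁻¹ (-(t * r⁻¹)) r⁻¹ (inv_ne_zero hs0.ne') (inv_ne_zero hr0.ne') with hM
  have hV : ∀ z : ℂ, ofPlane (cv P A) (cv P B) z = ofPlane (cv P L) (cv P L') (M z) := by
    intro z
    rw [ofPlane_apply, ofPlane_apply, hcA, hcB, hM, tri_re, tri_im]
    module
  have hdec := decomp P (toPlane A B) (ofPlane (cv P A) (cv P B)) (by
    intro g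
    have hg : g.comp (toPlane A B) = g 1 • A + g Complex.I • B := by
      ext x
      have : toPlane A B x = A x • (1 : ℂ) + B x • Complex.I := by
        rw [toPlane_apply]
        apply Complex.ext <;> simp
      simp only [ContinuousLinearMap.comp_apply, this, map_add, map_smul, smul_eq_mul, add_apply,
        smul_apply]
      ring
    rw [hg, cv_add, cv_smul, cv_smul, map_add, map_smul, map_smul, map_add, map_smul, map_smul]
    have hBA : cov[B, A; P] = 0 := by rw [covariance_comm, hAB]
    have a1 : toPlane A B (cv P A) = 1 := by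
      rw [toPlane_apply, dual_cv, dual_cv, covariance_self A.continuous.aemeasurable, hA1, hAB]
      rfl
    have a2 : toPlane A B (cv P B) = Complex.I := by
      rw [toPlane_apply, dual_cv, dual_cv, covariance_self B.continuous.aemeasurable, hB1, hBA]
      rfl
    rw [a1, a2, ofPlane_apply, ofPlane_apply]
    simp)
  have hmap : P.map ((M : ℂ →L[ℝ] ℂ).comp (toPlane A B)) = (P.map (toPlane A B)).map M := by
    rw [Measure.map_map M.continuous.measurable (toPlane A B).continuous.measurable]
    rfl
  refine ⟨(M : ℂ →L[ℝ] ℂ).comp (toPlane A B), ?_, ?_, ?_⟩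
  · rw [hmap]
    exact hbd.map_equiv M
  · rw [hmap]
    exact hlow.map_equiv M
  · have e1 : (fun x => x - ((((M : ℂ →L[ℝ] ℂ).comp (toPlane A B)) x).re • cv P L +
        (((M : ℂ →L[ℝ] ℂ).comp (toPlane A B)) x).im • cv P L')) =
        fun x => x - ofPlane (cv P A) (cv P B) (toPlane A B x) := by
      ext x
      rw [hV, ofPlane_apply]
      rfl
    have hm : Measurable fun p : E × ℂ => p.1 + (p.2.re • cv P L + p.2.im • cv P L') := by
      have : Continuous fun p : E × ℂ => p.1 + (p.2.re • cv P L + p.2.im • cv P L') := by fun_prop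
      exact this.measurable
    rw [e1, hmap]
    conv_lhs => rw [hdec]
    have hT : Measurable fun x => x - ofPlane (cv P A) (cv P B) (toPlane A B x) := by fun_prop
    have : IsProbabilityMeasure (P.map fun x => x - ofPlane (cv P A) (cv P B) (toPlane A B x)) :=
      Measure.isProbabilityMeasure_map hT.aemeasurable
    have : IsProbabilityMeasure (P.map (toPlane A B)) :=
      Measure.isProbabilityMeasure_map (toPlane A B).continuous.measurable.aemeasurable
    have h3 : (P.map fun x => x - ofPlane (cv P A) (cv P B) (toPlane A B x)).prod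
        ((P.map (toPlane A B)).map M) =
        ((P.map fun x => x - ofPlane (cv P A) (cv P B) (toPlane A B x)).prod
          (P.map (toPlane A B))).map (Prod.map id M) := by
      rw [← Measure.map_prod_map _ _ measurable_id M.continuous.measurable, Measure.map_id]
    rw [h3, Measure.map_map hm (measurable_id.prodMap M.continuous.measurable)]
    congr 1
    ext p
    simp only [Function.comp_apply, Prod.map_fst, Prod.map_snd, id_eq]
    rw [hV, ofPlane_apply]

/-! ### The support -/

theorem map_add_cv (hP : ∀ L : StrongDual ℝ E, L ≠ 0 → 0 < Var[L; P]) (L : StrongDual ℝ E) :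
    P.map (fun x => x + cv P L) ≪ P := by
  by_cases hL : L = 0
  · have hc0 : cv P 0 = 0 := by simpa using cv_smul P 0 0
    subst hL
    rw [hc0]
    simp only [add_zero]
    exact (Measure.map_id' (μ := P)).absolutelyContinuous
  have hv := hP L hL
  set v := Var[L; P] with hvdef
  have hdec := decomp P L ((ContinuousLinearMap.id ℝ ℝ).smulRight (v⁻¹ • cv P L)) (by
    intro g
    have hg : g.comp L = g 1 • L := by
      ext x
      have : L x = L x • (1 : ℝ) := by simp
      rw [ContinuousLinearMap.comp_apply, this, map_smul, smul_apply, smul_eq_mul, smul_eq_mul,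
        mul_comm]
    rw [hg, cv_smul, map_smul, dual_cv, covariance_self L.continuous.aemeasurable, ← hvdef,
      ContinuousLinearMap.smulRight_apply, ContinuousLinearMap.id_apply, smul_eq_mul, smul_smul,
      mul_assoc, mul_inv_cancel₀ hv.ne', mul_one])
  set V : ℝ →L[ℝ] E := (ContinuousLinearMap.id ℝ ℝ).smulRight (v⁻¹ • cv P L) with hV
  have hT : Measurable fun x => x - V (L x) := by fun_prop
  have i1 : IsProbabilityMeasure (P.map fun x => x - V (L x)) :=
    Measure.isProbabilityMeasure_map hT.aemeasurable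
  have i2 : IsProbabilityMeasure (P.map L) :=
    Measure.isProbabilityMeasure_map L.continuous.measurable.aemeasurable
  have hVv : V v = cv P L := by
    rw [hV, ContinuousLinearMap.smulRight_apply, ContinuousLinearMap.id_apply, smul_smul,
      mul_inv_cancel₀ hv.ne', one_smul]
  have h1 : ∀ w : E, w = V v → P.map (fun x => x + w) =
      ((P.map fun x => x - V (L x)).prod ((P.map L).map fun y => y + v)).map
        fun p => p.1 + V p.2 := by
    intro w hw
    conv_lhs => rw [hdec]
    have h3 : (P.map fun x => x - V (L x)).prod ((P.map L).map fun y => y + v) =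
        ((P.map fun x => x - V (L x)).prod (P.map L)).map (Prod.map id fun y => y + v) := by
      rw [← Measure.map_prod_map _ _ measurable_id (by fun_prop), Measure.map_id]
    rw [h3, Measure.map_map (by fun_prop) (by fun_prop), Measure.map_map (by fun_prop)
      (measurable_id.prodMap (by fun_prop))]
    congr 1
    ext p
    simp only [Function.comp_apply, Prod.map_fst, Prod.map_snd, id_eq]
    rw [map_add, hw, add_assoc]
  have hne : v.toNNReal ≠ 0 := by
    rw [ne_eq, Real.toNNReal_eq_zero, not_le]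
    exact hv
  have h2 : (P.map L).map (fun y => y + v) ≪ P.map L := by
    rw [IsGaussian.map_eq_gaussianReal L, gaussianReal_map_add_const]
    exact (gaussianReal_absolutelyContinuous _ hne).trans (gaussianReal_absolutelyContinuous' _ hne)
  rw [h1 _ hVv.symm]
  conv_rhs => rw [hdec]
  have : IsFiniteMeasure ((P.map L).map fun y => y + v) := by infer_instance
  exact ((Measure.AbsolutelyContinuous.refl _).prod h2).map (by fun_prop)

theorem pos_ball (hP : ∀ L : StrongDual ℝ E, L ≠ 0 → 0 < Var[L; P]) (φ : E) {ρ : ℝ}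
    (hρ : 0 < ρ) : 0 < P (Metric.ball φ ρ) := by
  obtain ⟨x, -, hx⟩ := exists_mem_forall_mem_nhdsWithin_pos_measure (μ := P) (s := univ)
    (by simp)
  obtain ⟨_, hL, ⟨L, rfl⟩⟩ := Metric.dense_iff.1 (dense_cvs P hP) (φ - x) (ρ / 2) (half_pos hρ)
  have h1 : 0 < P (Metric.ball x (ρ / 2)) := by
    refine hx _ ?_
    rw [nhdsWithin_univ]
    exact Metric.ball_mem_nhds _ (half_pos hρ)
  have h2 : 0 < P (Metric.ball (x + cv P L) (ρ / 2)) := by
    rw [pos_iff_ne_zero]
    intro h0
    have h3 := map_add_cv P hP L h0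
    rw [Measure.map_apply (by fun_prop) measurableSet_ball] at h3
    have h4 : (fun y => y + cv P L) ⁻¹' Metric.ball (x + cv P L) (ρ / 2) =
        Metric.ball x (ρ / 2) := by
      ext y
      simp [Metric.mem_ball, dist_eq_norm]
    rw [h4] at h3
    exact h1.ne' h3
  refine h2.trans_le (measure_mono fun y hy => ?_)
  rw [Metric.mem_ball, dist_eq_norm] at hy hL ⊢
  have h5 : y - φ = (y - (x + cv P L)) + (cv P L - (φ - x)) := by abel
  rw [h5]
  exact (norm_add_le _ _).trans_lt (by linarith)

theorem stGauss : StGauss := by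
  intro E _ _ _ _ _ _ P _ hP
  refine ⟨cvs P, ?_, ?_⟩
  · exact (dense_cvs P hP).mono Submodule.subset_span
  · intro h hh k hk hli
    obtain ⟨Y, ⟨c, hc, hbd⟩, -, hdec⟩ := plane_decomp P hP hh hk hli
    exact ⟨_, _, c, Measure.isProbabilityMeasure_map (by fun_prop),
      Measure.isProbabilityMeasure_map (by fun_prop), hc, hbd, hdec⟩


theorem stGaussLow : StGaussLow := by
  intro E _ _ _ _ _ _ P _ hP
  refine ⟨cvs P, (dense_cvs P hP).mono Submodule.subset_span, ?_⟩
  intro φ₀ h hh k hk hli
  obtain ⟨Y, -, hlow, hdec⟩ := plane_decomp P hP hh hk hli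
  obtain ⟨c, hc0, hc, hle⟩ := hlow (‖Y φ₀‖ + 1)
  refine ⟨_, _, Y φ₀, 1, c.toReal, Measure.isProbabilityMeasure_map (by fun_prop),
    Measure.isProbabilityMeasure_map (by fun_prop), one_pos, ENNReal.toReal_pos hc0.ne' hc, ?_, ?_,
    hdec⟩
  · intro A hA hAs
    rw [ENNReal.ofReal_toReal hc]
    refine le_trans ?_ (hle A)
    rw [Measure.smul_apply, smul_eq_mul, Measure.restrict_apply hA]
    refine mul_le_mul_right (measure_mono (subset_inter subset_rfl fun z hz => ?_)) _
    have h1 := mem_closedBall_iff_norm.1 (hAs hz)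
    rw [mem_closedBall_zero_iff]
    calc ‖z‖ = ‖Y φ₀ + (z - Y φ₀)‖ := by rw [add_sub_cancel]
      _ ≤ ‖Y φ₀‖ + 1 := (norm_add_le _ _).trans (by linarith)
  · intro ρ hρ
    have hT : Continuous fun x => x - ((Y x).re • h + (Y x).im • k) := by fun_prop
    obtain ⟨δ, hδ, hball⟩ := Metric.continuous_iff.1 hT φ₀ ρ hρ
    rw [Measure.map_apply hT.measurable Metric.isClosed_closedBall.measurableSet]
    refine (pos_ball P hP φ₀ hδ).trans_le (measure_mono fun y hy => ?_)
    exact Metric.ball_subset_closedBall (hball y hy)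

end Pool.Agent.H51.UC
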