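import Pool.Agent.H51.UC.Gauss
import Pool.Agent.H23.UC.Stm6

/-!
# Nondegenerate Gaussian measures: `d` covariance vectors

The density in the space spanned by `d` covariance vectors.
-/

set_option autoImplicit false
set_option linter.unusedSectionVars false

open Set Filter Topology MeasureTheory ProbabilityTheory Matrix WithLp
open scoped RealInnerProductSpace MatrixOrder

noncomputable section

namespace Pool.Agent.H51.UC

open Pool.Agent.H23.UC

/-! ### Nondegenerate Gaussian measures on the Euclidean space -/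

theorem pi_le_smul {d : ℕ} (μ ν : Fin d → Measure ℝ) (c : ENNReal) (hc0 : c ≠ 0) (hc : c ≠ ⊤)
    (h : ∀ i, μ i ≤ c • ν i) : Measure.pi μ ≤ c ^ d • Measure.pi ν := by
  have hc0' : c ^ d ≠ 0 := pow_ne_zero _ hc0
  have hc' : c ^ d ≠ ⊤ := ENNReal.pow_ne_top hc
  have key : (c ^ d)⁻¹ • OuterMeasure.pi (fun i => (μ i).toOuterMeasure) ≤
      OuterMeasure.pi (fun i => (ν i).toOuterMeasure) := by
    refine OuterMeasure.le_pi.2 fun s _ => ?_
    rw [_root_.smul_apply, smul_eq_mul, ENNReal.inv_mul_le_iff hc0' hc']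
    refine (OuterMeasure.pi_pi_le _ s).trans ?_
    calc ∏ i, (μ i) (s i) ≤ ∏ i, (c * (ν i) (s i)) := Finset.prod_le_prod' fun i _ => h i (s i)
      _ = c ^ d * ∏ i, (ν i) (s i) := by
        rw [Finset.prod_mul_distrib, Finset.prod_const, Finset.card_univ, Fintype.card_fin]
  refine Measure.le_iff.2 fun s hs => ?_
  rw [Measure.smul_apply, smul_eq_mul, Measure.pi, Measure.pi, toMeasure_apply _ _ hs,
    toMeasure_apply _ _ hs, ← ENNReal.inv_mul_le_iff hc0' hc']
  exact key s

theorem bdd_std (d : ℕ) : Bdd (stdGaussian (EuclideanSpace ℝ (Fin d))) := by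
  obtain ⟨c, hc, hle⟩ := bdd_gaussianReal 0 (v := 1) one_ne_zero
  have hc0 : c ≠ 0 := by
    rintro rfl
    rw [zero_smul] at hle
    have h1 := hle univ
    rw [measure_univ] at h1
    simp at h1
  refine ⟨c ^ d, ENNReal.pow_ne_top hc, ?_⟩
  rw [← map_pi_eq_stdGaussian, ← (PiLp.volume_preserving_toLp (Fin d)).map_eq, ← Measure.map_smul]
  refine Measure.map_mono ?_ (by fun_prop)
  exact pi_le_smul _ _ c hc0 hc fun _ => hle

/-- the covariance matrix -/
def covM {d : ℕ} (ν : Measure (EuclideanSpace ℝ (Fin d))) : Matrix (Fin d) (Fin d) ℝ :=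
  Matrix.of fun i j => cov[fun x => x i, fun x => x j; ν]

theorem covarianceBilin_eq {d : ℕ} (ν : Measure (EuclideanSpace ℝ (Fin d))) [IsGaussian ν]
    (x y : EuclideanSpace ℝ (Fin d)) : covarianceBilin ν x y = x ⬝ᵥ covM ν *ᵥ y := by
  rw [covarianceBilin_apply_eq_cov IsGaussian.memLp_two_id]
  have h1 : ∀ x : EuclideanSpace ℝ (Fin d), (fun u : EuclideanSpace ℝ (Fin d) => ⟪x, u⟫) =
      fun u => ∑ i, x i * u i := by
    intro x
    ext u
    simp [PiLp.inner_apply, mul_comm]
  have hm : ∀ (c : ℝ) (i : Fin d), MemLp (fun u : EuclideanSpace ℝ (Fin d) => c * u i) 2 ν :=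
    fun c i => (IsGaussian.memLp_dual ν (EuclideanSpace.proj i) 2 (by simp)).const_mul c
  rw [h1, h1, covariance_fun_sum_fun_sum (fun i => hm _ i) (fun j => hm _ j)]
  simp only [covariance_const_mul_left, covariance_const_mul_right]
  simp only [dotProduct, mulVec, covM, Matrix.of_apply, Finset.mul_sum]
  refine Finset.sum_congr rfl fun i _ => Finset.sum_congr rfl fun j _ => ?_
  ring

theorem covM_posDef {d : ℕ} (ν : Measure (EuclideanSpace ℝ (Fin d))) [IsGaussian ν]
    (h : ∀ L : StrongDual ℝ (EuclideanSpace ℝ (Fin d)), L ≠ 0 → 0 < Var[L; ν]) :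
    (covM ν).PosDef := by
  refine Matrix.PosDef.of_dotProduct_mulVec_pos ?_ fun x hx => ?_
  · ext i j
    simp only [covM, Matrix.conjTranspose_apply, Matrix.of_apply, star_trivial]
    exact covariance_comm _ _
  · have h1 := covarianceBilin_eq ν (toLp 2 x) (toLp 2 x)
    rw [covarianceBilin_self IsGaussian.memLp_two_id] at h1
    rw [star_trivial]
    have h2 : (x ⬝ᵥ covM ν *ᵥ x) = Var[fun u => ⟪(toLp 2 x : EuclideanSpace ℝ (Fin d)), u⟫; ν] :=
      h1.symm
    rw [h2]
    refine h (innerSL ℝ (toLp 2 x)) fun h0 => hx ?_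
    have h3 : (innerSL ℝ (toLp 2 x : EuclideanSpace ℝ (Fin d))) (toLp 2 x) = 0 := by
      rw [h0]
      rfl
    rw [innerSL_apply_apply, inner_self_eq_zero] at h3
    simpa using h3

theorem bdd_gaussian {d : ℕ} (ν : Measure (EuclideanSpace ℝ (Fin d))) [IsGaussian ν]
    (h : ∀ L : StrongDual ℝ (EuclideanSpace ℝ (Fin d)), L ≠ 0 → 0 < Var[L; ν]) : Bdd ν := by
  have hS := covM_posDef ν h
  have h1 : ν = multivariateGaussian (ν[id]) (covM ν) := by
    refine IsGaussian.ext (integral_id_multivariateGaussian').symm ?_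
    ext x y
    rw [covarianceBilin_multivariateGaussian hS.posSemidef, covarianceBilin_eq]
  obtain ⟨c, hc, hle⟩ := bdd_std d
  set f0 : EuclideanSpace ℝ (Fin d) →L[ℝ] EuclideanSpace ℝ (Fin d) :=
    toEuclideanCLM (𝕜 := ℝ) (CFC.sqrt (covM ν)) with hf0
  set f : EuclideanSpace ℝ (Fin d) →ₗ[ℝ] EuclideanSpace ℝ (Fin d) := f0.toLinearMap with hf
  have hdet : LinearMap.det f ≠ 0 := by
    have h2 : CFC.sqrt (covM ν) * CFC.sqrt (covM ν) = covM ν :=
      CFC.sqrt_mul_sqrt_self _ hS.posSemidef.nonneg
    have h3 : IsUnit (CFC.sqrt (covM ν)) := by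
      have h4 := hS.isUnit
      rw [← h2] at h4
      exact isUnit_of_mul_isUnit_left h4
    obtain ⟨B, hB⟩ := h3.exists_right_inv
    set g0 : EuclideanSpace ℝ (Fin d) →L[ℝ] EuclideanSpace ℝ (Fin d) :=
      toEuclideanCLM (𝕜 := ℝ) B with hg0
    have h5 : f * g0.toLinearMap = 1 := by
      have h6 := congrArg (toEuclideanCLM (n := Fin d) (𝕜 := ℝ)) hB
      rw [map_mul, map_one] at h6
      exact congrArg (fun g : EuclideanSpace ℝ (Fin d) →L[ℝ] EuclideanSpace ℝ (Fin d) =>
        g.toLinearMap) h6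
    intro h0
    have h7 := congrArg LinearMap.det h5
    rw [map_mul, h0, zero_mul, map_one] at h7
    exact zero_ne_one h7
  refine ⟨c * ENNReal.ofReal |(LinearMap.det f)⁻¹|,
    ENNReal.mul_ne_top hc ENNReal.ofReal_ne_top, ?_⟩
  have hfm : Measurable f := f0.continuous.measurable
  have h8 : ν = ((stdGaussian (EuclideanSpace ℝ (Fin d))).map f).map (fun x => ν[id] + x) := by
    rw [Measure.map_map (by fun_prop) hfm]
    exact h1
  have h9 := Measure.map_mono (Measure.map_mono hle hfm)
    (f := fun x : EuclideanSpace ℝ (Fin d) => ν[id] + x) (by fun_prop)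
  rw [Measure.map_smul, Measure.map_linearMap_addHaar_eq_smul_addHaar volume hdet, Measure.map_smul,
    Measure.map_smul, map_add_left_eq_self (volume : Measure (EuclideanSpace ℝ (Fin d))),
    smul_smul] at h9
  calc ν = ((stdGaussian (EuclideanSpace ℝ (Fin d))).map f).map (fun x => ν[id] + x) := h8
    _ ≤ _ := h9

/-! ### Decompositions -/

variable {E : Type} [NormedAddCommGroup E] [NormedSpace ℝ E] [CompleteSpace E]
  [SecondCountableTopology E] [MeasurableSpace E] [BorelSpace E] (P : Measure E) [IsGaussian P]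

/-- the linear map `z ↦ ∑ j, z j • h j` -/
def slice0 {d : ℕ} (h : Fin d → E) : EuclideanSpace ℝ (Fin d) →ₗ[ℝ] E where
  toFun z := ∑ j, z j • h j
  map_add' z w := by
    simp [add_smul, Finset.sum_add_distrib]
  map_smul' c z := by
    simp [mul_smul, Finset.smul_sum]

/-- the covariance vector as a linear map -/
def cvLin : StrongDual ℝ E →ₗ[ℝ] E where
  toFun := cv P
  map_add' := cv_add P
  map_smul' := cv_smul P

/-- decomposition along the space of `d` covariance vectors -/
theorem space_decomp (hP : ∀ L : StrongDual ℝ E, L ≠ 0 → 0 < Var[L; P]) {d : ℕ} {h : Fin d → E}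
    (hh : ∀ j, h j ∈ cvs P) (hli : LinearIndependent ℝ h) :
    ∃ Y : E →L[ℝ] EuclideanSpace ℝ (Fin d), Bdd (P.map Y) ∧
      P = ((P.map fun x => x - ∑ j, (Y x) j • h j).prod (P.map Y)).map
        fun p => p.1 + ∑ j, p.2 j • h j := by
  choose L hL using hh
  have hmem : ∀ M : StrongDual ℝ E, MemLp M 2 P := fun M => IsGaussian.memLp_dual P M 2 (by simp)
  -- the Gram matrix
  set G : Matrix (Fin d) (Fin d) ℝ := Matrix.of fun i j => cov[L i, L j; P] with hG
  have hcv : ∀ c : Fin d → ℝ, cvLin P (∑ i, c i • L i) = ∑ i, c i • h i := by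
    intro c
    rw [map_sum]
    refine Finset.sum_congr rfl fun i _ => ?_
    rw [map_smul]
    exact congrArg _ (hL i)
  have hGpos : G.PosDef := by
    refine Matrix.PosDef.of_dotProduct_mulVec_pos ?_ fun x hx => ?_
    · ext i j
      simp only [hG, Matrix.conjTranspose_apply, Matrix.of_apply, star_trivial]
      exact covariance_comm _ _
    · have h0 : (∑ i, x i • L i) ≠ 0 := by
        intro h0
        have h1 := hcv x
        rw [h0, map_zero] at h1
        exact hx (funext (Fintype.linearIndependent_iff.1 hli x h1.symm))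
      have h1 := hP _ h0
      have h2 : Var[(∑ i, x i • L i : StrongDual ℝ E); P] = x ⬝ᵥ G *ᵥ x := by
        rw [← covariance_self (ContinuousLinearMap.continuous _).aemeasurable]
        have h3 : ((∑ i, x i • L i : StrongDual ℝ E) : E → ℝ) = fun u => ∑ i, x i * L i u := by
          ext u
          simp
        rw [h3, covariance_fun_sum_fun_sum (fun i => (hmem (L i)).const_mul _)
          (fun j => (hmem (L j)).const_mul _)]
        simp only [covariance_const_mul_left, covariance_const_mul_right]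
        simp only [dotProduct, mulVec, hG, Matrix.of_apply, Finset.mul_sum]
        refine Finset.sum_congr rfl fun i _ => Finset.sum_congr rfl fun j _ => ?_
        ring
      rw [star_trivial, ← h2]
      exact h1
  -- the dual basis
  set a : Fin d → StrongDual ℝ E := fun i => ∑ j, G⁻¹ i j • L j with ha
  have hsym : ∀ i j, G i j = G j i := fun i j => covariance_comm _ _
  have hah : ∀ i k, a i (h k) = if i = k then 1 else 0 := by
    intro i k
    have h1 : ∀ j, (L j) (h k) = G j k := by
      intro j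
      rw [← hL k, dual_cv, hsym]
      rfl
    have h2 : a i (h k) = (G⁻¹ * G) i k := by
      simp only [ha, _root_.sum_apply, _root_.smul_apply, smul_eq_mul, h1, Matrix.mul_apply]
    rw [h2, Matrix.nonsing_inv_mul _ ((Matrix.isUnit_iff_isUnit_det _).1 hGpos.isUnit),
      Matrix.one_apply]
  set Y : E →L[ℝ] EuclideanSpace ℝ (Fin d) :=
    ((EuclideanSpace.equiv (Fin d) ℝ).symm : (Fin d → ℝ) →L[ℝ] EuclideanSpace ℝ (Fin d)).comp
      (ContinuousLinearMap.pi a) with hY
  have hYa : ∀ x i, (Y x) i = a i x := fun x i => rfl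
  set V : EuclideanSpace ℝ (Fin d) →L[ℝ] E := LinearMap.toContinuousLinearMap (slice0 h) with hV
  have hVa : ∀ z, V z = ∑ j, z j • h j := fun z => rfl
  have hVY : ∀ k, V (Y (h k)) = h k := by
    intro k
    rw [hVa]
    simp only [hYa, hah]
    simp
  have hYV : ∀ z, Y (V z) = z := by
    intro z
    ext i
    rw [hYa, hVa, map_sum]
    simp [hah]
  have hspan : ∀ f ∈ Submodule.span ℝ (range L), V (Y (cv P f)) = cv P f := by
    intro f hf
    have h1 : Set.EqOn (((V.comp Y : E →L[ℝ] E) : E →ₗ[ℝ] E).comp (cvLin P)) (cvLin P)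
        (range L) := by
      rintro _ ⟨k, rfl⟩
      change V (Y (cv P (L k))) = cv P (L k)
      rw [hL k]
      exact hVY k
    exact LinearMap.eqOn_span h1 hf
  have hdec := decomp P Y V (by
    intro g
    apply hspan
    have hg : g.comp Y = ∑ i, g (EuclideanSpace.single i 1) • a i := by
      ext x
      have h1 : Y x = ∑ i, (a i x) • EuclideanSpace.single i (1 : ℝ) := by
        ext j
        rw [hYa]
        simp [Pi.single_apply]
      rw [ContinuousLinearMap.comp_apply, h1, map_sum]
      simp [mul_comm]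
    rw [hg]
    refine Submodule.sum_mem _ fun i _ => Submodule.smul_mem _ _ ?_
    exact Submodule.sum_mem _ fun j _ => Submodule.smul_mem _ _ (Submodule.subset_span ⟨j, rfl⟩))
  refine ⟨Y, ?_, hdec⟩
  apply bdd_gaussian
  intro g hg
  rw [variance_map g.continuous.aemeasurable Y.continuous.aemeasurable]
  refine hP (g.comp Y) fun h0 => hg ?_
  ext z
  rw [← hYV z]
  exact congrArg (fun f : StrongDual ℝ E => f (V z)) h0

/-- the statement for `d` covariance vectors -/
theorem stGaussD : ∀ (E : Type) [NormedAddCommGroup E] [NormedSpace ℝ E] [CompleteSpace E]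
    [SecondCountableTopology E] [MeasurableSpace E] [BorelSpace E] (P : Measure E)
    [IsGaussian P], (∀ L : StrongDual ℝ E, L ≠ 0 → 0 < Var[L; P]) →
    ∃ S : Set E, Dense (Submodule.span ℝ S : Set E) ∧
      ∀ (d : ℕ) (h : Fin d → E), (∀ j, h j ∈ S) → LinearIndependent ℝ h → BdDirD P h := by
  intro E _ _ _ _ _ _ P _ hP
  refine ⟨cvs P, (dense_cvs P hP).mono Submodule.subset_span, fun d h hh hli => ?_⟩
  obtain ⟨Y, ⟨c, hc, hle⟩, hdec⟩ := space_decomp P hP hh hli
  refine ⟨_, _, c, Measure.isProbabilityMeasure_map ?_, Measure.isProbabilityMeasure_map ?_, hc, hle,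
    hdec⟩
  · have : Measurable fun x => x - ∑ j, (Y x) j • h j := by
      have : Continuous fun x => x - ∑ j, (Y x) j • h j := by fun_prop
      exact this.measurable
    exact this.aemeasurable
  · exact Y.continuous.measurable.aemeasurable

end Pool.Agent.H51.UC
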